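import Pool.Agent.Results.MP_af11aa_nt.RealMultiples

/-!
# The Ramanujan bound in weight 3/2 at random indices

Let `f_j` be cusp forms of weight `3/2` on `Γ₀(N_j)` with characters modulo `N_j`, `4 ∣ N_j`, with the Fourier coefficients `a_j(n)`
(finitely or countably many forms; the set of all forms with algebraic coefficients for all `N = 24 p` is countable). For
`0 < β ≤ 1/2` the Ramanujan bound `|a_j(m)| ≤ m ^ (1/4 + β)` holds, without exception, for all natural numbers `m` which are written
by large windows of digits of a random real number, or are close to the multiples `α v_k` of a random real number, in the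
sense of `Pool.Agent.Q21.DW.RandomReals s`, `s = 1 - 2 β`.

In the formalization the `f_j` are functions on the upper half plane with Fourier expansions whose fourth powers are cusp forms of
weight `6` on `Γ₁(N_j)` (`IsHalfForm`, see `RealMultiples`).
-/

set_option autoImplicit false

namespace Pool.Agent.Results.MP_af11aa_nt.RandomIndices

open UpperHalfPlane
open Pool.Agent.Results.MP_af11aa_nt.RealMultiples (IsHalfForm few)

/-- **The Ramanujan bound in weight 3/2 at random indices**, for a sequence of forms. -/
theorem result (β : ℝ) (hβ : 0 < β) (hβ2 : 2 * β ≤ 1) (N : ℕ → ℕ) (hN : ∀ j, N j ≠ 0) (f : ℕ → ℍ → ℂ) (a : ℕ → ℕ → ℂ)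
    (h : ∀ j, IsHalfForm (N j) (f j) (a j)) :
    Pool.Agent.Q21.DW.RandomReals (1 - 2 * β) (fun (j : ℕ) (m : ℕ) => ‖a j m‖ ≤ (m : ℝ) ^ (1 / 4 + β)) := by
  refine Pool.Agent.Q21.DW.randomReals_of (B := fun (j : ℕ) (m : ℕ) => ¬ ‖a j m‖ ≤ (m : ℝ) ^ (1 / 4 + β))
    (by linarith) (by linarith) (fun j => ?_) (fun j n _ hn => not_not.1 hn)
  have : NeZero (N j) := ⟨hN j⟩
  exact few (h j) hβ (by linarith)

end Pool.Agent.Results.MP_af11aa_nt.RandomIndices
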