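import Pool.Agent.W165.RS.Parseval
import Pool.Agent.Q21.DW.Dy
import Pool.Agent.Q319.DR.MultP

/-!
# The Ramanujan bound in weight 3/2 in windows around the multiples of one real number

Let `f` be a cusp form of weight `3/2` on `Γ₀(N)` with a character modulo `N`, `4 ∣ N` (for example `N = 24 p` and `f` orthogonal to the
unary theta series), with the Fourier coefficients `a(n)`. For all `β > 0` and `0 < θ < 1` there is `c > 0`, depending on `β` and `θ`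
only, such that for all large `X` and all real numbers `y` in `[X ^ (1 - θ), 2 X ^ (1 - θ)]` outside a set of measure at most
`X ^ (1 - θ - c)`: for all `k ≤ X ^ θ` with at most `X ^ (θ - c)` exceptions, EVERY natural number `m` with `|m - k y| ≤ X ^ c`
satisfies the Ramanujan bound `|a(m)| ≤ m ^ (1/4 + β)`.

In the formalization `f` is any function on the upper half plane with a Fourier expansion `∑ a(n) e(n z)` whose fourth power is a
cusp form of weight `6` on `Γ₁(N)`; the fourth power of the theta multiplier is `(c z + d) ^ 2`, so that all cusp forms of weight `3/2`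
on `Γ₀(N)` with a character modulo `N`, `4 ∣ N`, are of this kind.

The proof: `|f(z)| y ^ (3/4)` is bounded, so the mean square of the coefficients is bounded by Parseval's equation on horocycles
(`W165.RS.parseval`), and there are at most `X ^ (1 - 2 β + o(1))` exceptions `m ≤ X` to the bound; the law for exceptional sets
with a power saving and the multiples of real numbers (`Q319.DR.mult_fewP`) shows that their neighbourhoods do not meet the multiples of almost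
all real numbers.
-/

set_option autoImplicit false

namespace Pool.Agent.Results.MP_af11aa_nt.RealMultiples

open Complex MeasureTheory CongruenceSubgroup
open UpperHalfPlane hiding I
open Pool.Agent.W165.RS (ee parseval norm_ee)

/-- `f` has the Fourier expansion `f(z) = ∑ a(n) e(n z)`, and its fourth power is a cusp form of weight `6` on `Γ₁(N)`. -/
def IsHalfForm (N : ℕ) (f : ℍ → ℂ) (a : ℕ → ℂ) : Prop :=
  (∃ F : CuspForm ((Gamma1 N).map (Matrix.SpecialLinearGroup.mapGL ℝ)) 6, ∀ τ : ℍ, F τ = f τ ^ 4) ∧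
  ∀ τ : ℍ, HasSum (fun n : ℕ => a n * Complex.exp (2 * Real.pi * I * n * (τ : ℂ))) (f τ)

/-- the mean square of the coefficients -/
lemma mean_square {N : ℕ} [NeZero N] {f : ℍ → ℂ} {a : ℕ → ℂ} (h : IsHalfForm N f a) :
    ∃ C : ℝ, 0 ≤ C ∧ ∀ X : ℕ, 1 ≤ X → ∑ n ∈ Finset.Icc 1 X, ‖a n‖ ^ 2 ≤ C * (X : ℝ) ^ (3 / 2 : ℝ) := by
  obtain ⟨⟨F, hF⟩, hs⟩ := h
  obtain ⟨C₀, hC₀⟩ := CuspFormClass.exists_bound (k := 6)
    (Γ := ((Gamma1 N).map (Matrix.SpecialLinearGroup.mapGL ℝ))) F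
  refine ⟨Real.exp (4 * Real.pi) * Real.sqrt |C₀|, by positivity, fun X hX => ?_⟩
  have hX0 : (0 : ℝ) < X := by exact_mod_cast (by omega : 0 < X)
  obtain ⟨y, hy⟩ : ∃ y : ℝ, y = 1 / X := ⟨_, rfl⟩
  have hy0 : 0 < y := by rw [hy]; positivity
  have hmem : ∀ x : ℝ, 0 < ((x : ℂ) + y * I).im := fun x => by simpa using hy0
  obtain ⟨c, hc⟩ : ∃ c : ℕ → ℂ, c = fun n => a n * ((Real.exp (-(2 * Real.pi * n * y)) : ℝ) : ℂ) := ⟨_, rfl⟩
  have hpt : ∀ x : ℝ, HasSum (fun n : ℕ => c n * ee n x) (f ⟨x + y * I, hmem x⟩) := by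
    intro x
    have h1 := hs ⟨x + y * I, hmem x⟩
    convert h1 using 2 with n
    rw [hc]
    unfold ee
    beta_reduce
    rw [mul_assoc]
    congr 1
    rw [Complex.ofReal_exp, ← Complex.exp_add]
    congr 1
    push_cast
    have : (2 * Real.pi * I * n * (x + y * I) : ℂ) = 2 * Real.pi * n * x * I + 2 * Real.pi * n * y * (I * I) := by ring
    show _ = (2 * Real.pi * I * n * (x + y * I) : ℂ)
    rw [this, I_mul_I]
    ring
  have hsum : Summable (fun n => ‖c n‖) := by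
    have h1 := (hpt 0).summable.norm
    refine h1.congr fun n => ?_
    rw [norm_mul, norm_ee, mul_one]
  have hp := parseval hsum
  have hbound : ∀ x : ℝ, ‖∑' n, c n * ee n x‖ ^ 2 ≤ Real.sqrt |C₀| * (X : ℝ) ^ (3 / 2 : ℝ) := by
    intro x
    rw [(hpt x).tsum_eq]
    have h1 := hC₀ ⟨x + y * I, hmem x⟩
    have him : (⟨x + y * I, hmem x⟩ : ℍ).im = y := by
      show ((x : ℂ) + y * I).im = y
      simp
    rw [hF, norm_pow, him] at h1
    have h2 : y ^ (((6 : ℤ) : ℝ) / 2) = y ^ 3 := by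
      rw [← Real.rpow_natCast]
      norm_num
    rw [h2] at h1
    have h3 : C₀ / y ^ 3 ≤ |C₀| * (X : ℝ) ^ 3 := by
      rw [hy]
      rw [div_pow, one_pow, div_div_eq_mul_div, div_one]
      exact mul_le_mul_of_nonneg_right (le_abs_self _) (by positivity)
    have h4 : (‖f ⟨x + y * I, hmem x⟩‖ ^ 2) ^ 2 ≤ |C₀| * (X : ℝ) ^ 3 := by
      rw [← pow_mul]
      exact h1.trans h3
    have h5 := Real.le_sqrt_of_sq_le h4
    rw [Real.sqrt_mul (abs_nonneg _)] at h5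
    have h6 : Real.sqrt ((X : ℝ) ^ 3) = (X : ℝ) ^ (3 / 2 : ℝ) := by
      rw [Real.sqrt_eq_rpow, ← Real.rpow_natCast, ← Real.rpow_mul hX0.le]
      norm_num
    rwa [h6] at h5
  have hint : ∫ x in (0:ℝ)..1, ‖∑' n, c n * ee n x‖ ^ 2 ≤ Real.sqrt |C₀| * (X : ℝ) ^ (3 / 2 : ℝ) := by
    have h1 := intervalIntegral.norm_integral_le_of_norm_le_const (a := (0 : ℝ)) (b := 1)
      (f := fun x : ℝ => ‖∑' n, c n * ee n x‖ ^ 2) (C := Real.sqrt |C₀| * (X : ℝ) ^ (3 / 2 : ℝ)) (fun x _ => by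
        rw [Real.norm_eq_abs, abs_of_nonneg (by positivity)]
        exact hbound x)
    rw [sub_zero, abs_one, mul_one] at h1
    exact (le_abs_self _).trans h1
  have hfin : ∑ n ∈ Finset.Icc 1 X, ‖c n‖ ^ 2 ≤ Real.sqrt |C₀| * (X : ℝ) ^ (3 / 2 : ℝ) :=
    (sum_le_hasSum _ (fun n _ => by positivity) hp).trans hint
  have hterm : ∀ n ∈ Finset.Icc 1 X, ‖a n‖ ^ 2 ≤ Real.exp (4 * Real.pi) * ‖c n‖ ^ 2 := by
    intro n hn
    have hnX : (n : ℝ) ≤ X := by exact_mod_cast (Finset.mem_Icc.1 hn).2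
    rw [hc]
    beta_reduce
    rw [norm_mul, Complex.norm_real, Real.norm_eq_abs, abs_of_pos (Real.exp_pos _), mul_pow, ← Real.exp_nat_mul]
    have h1 : (1 : ℝ) ≤ Real.exp (4 * Real.pi) * Real.exp (((2 : ℕ) : ℝ) * -(2 * Real.pi * n * y)) := by
      rw [← Real.exp_add]
      apply Real.one_le_exp
      have h2 : (n : ℝ) * y ≤ 1 := by
        rw [hy, mul_one_div, div_le_one hX0]
        exact hnX
      have h3 := Real.pi_pos
      push_cast
      nlinarith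
    calc ‖a n‖ ^ 2 = ‖a n‖ ^ 2 * 1 := (mul_one _).symm
      _ ≤ ‖a n‖ ^ 2 * (Real.exp (4 * Real.pi) * Real.exp (((2 : ℕ) : ℝ) * -(2 * Real.pi * n * y))) :=
          mul_le_mul_of_nonneg_left h1 (by positivity)
      _ = _ := by ring
  calc ∑ n ∈ Finset.Icc 1 X, ‖a n‖ ^ 2 ≤ ∑ n ∈ Finset.Icc 1 X, Real.exp (4 * Real.pi) * ‖c n‖ ^ 2 :=
        Finset.sum_le_sum hterm
    _ = Real.exp (4 * Real.pi) * ∑ n ∈ Finset.Icc 1 X, ‖c n‖ ^ 2 := by rw [Finset.mul_sum]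
    _ ≤ Real.exp (4 * Real.pi) * (Real.sqrt |C₀| * (X : ℝ) ^ (3 / 2 : ℝ)) :=
        mul_le_mul_of_nonneg_left hfin (Real.exp_pos _).le
    _ = _ := by ring

/-- few exceptions -/
lemma few {N : ℕ} [NeZero N] {f : ℍ → ℂ} {a : ℕ → ℂ} (h : IsHalfForm N f a) {β : ℝ} (hβ : 0 < β) (hβ2 : β ≤ 1 / 2) :
    Pool.Agent.Q21.DW.PS (1 - 2 * β) (fun m => ¬ ‖a m‖ ≤ (m : ℝ) ^ (1 / 4 + β)) := by
  classical
  obtain ⟨C, hC, H⟩ := mean_square h
  refine Pool.Agent.Q21.DW.ps_dyadic' (by linarith) fun t ht => ?_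
  refine ⟨C * 2 ^ (1 / 2 + 2 * β), 1, fun X _ hX1 => ?_⟩
  have hX0 : (0 : ℝ) < X := by exact_mod_cast (by omega : 0 < X)
  have hX1' : (1 : ℝ) ≤ X := by exact_mod_cast hX1
  obtain ⟨S, hS⟩ : ∃ S : Finset ℕ, S = (Finset.Icc 1 X).filter (fun n => X < 2 * n ∧ ¬ ‖a n‖ ≤ (n : ℝ) ^ (1 / 4 + β)) :=
    ⟨_, rfl⟩
  have hset : ({n : ℕ | 1 ≤ n ∧ n ≤ X ∧ X < 2 * n ∧ ¬ ‖a n‖ ≤ (n : ℝ) ^ (1 / 4 + β)} : Set ℕ) = ↑S := by
    ext n
    rw [hS]
    simp only [Set.mem_ofPred_eq, Finset.coe_filter, Finset.mem_Icc]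
    tauto
  rw [hset, Set.ncard_coe_finset]
  obtain ⟨L, hL⟩ : ∃ L : ℝ, L = ((X : ℝ) / 2) ^ (1 / 2 + 2 * β) := ⟨_, rfl⟩
  have hL0 : 0 < L := by rw [hL]; positivity
  have h1 : (S.card : ℝ) * L ≤ C * (X : ℝ) ^ (3 / 2 : ℝ) := by
    calc (S.card : ℝ) * L = ∑ n ∈ S, L := by rw [Finset.sum_const, nsmul_eq_mul]
      _ ≤ ∑ n ∈ S, ‖a n‖ ^ 2 := by
          refine Finset.sum_le_sum fun n hn => ?_
          rw [hS, Finset.mem_filter, Finset.mem_Icc] at hn
          obtain ⟨⟨hn1, _⟩, hn2, hn3⟩ := hn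
          have hn0 : (0 : ℝ) < n := by exact_mod_cast (by omega : 0 < n)
          have hnX : (X : ℝ) / 2 ≤ n := by
            have : (X : ℝ) < 2 * n := by exact_mod_cast hn2
            linarith
          have h2 : L ≤ ((n : ℝ) ^ (1 / 4 + β)) ^ 2 := by
            rw [hL, ← Real.rpow_natCast ((n : ℝ) ^ (1 / 4 + β)), ← Real.rpow_mul hn0.le]
            have h3 : (1 / 4 + β) * ((2 : ℕ) : ℝ) = 1 / 2 + 2 * β := by push_cast; ring
            rw [h3]
            exact Real.rpow_le_rpow (by positivity) hnX (by linarith)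
          exact h2.trans (pow_le_pow_left₀ (by positivity) (not_le.1 hn3).le 2)
      _ ≤ ∑ n ∈ Finset.Icc 1 X, ‖a n‖ ^ 2 := by
          rw [hS]
          exact Finset.sum_le_sum_of_subset_of_nonneg (Finset.filter_subset _ _) fun n _ _ => by positivity
      _ ≤ _ := H X hX1
  have h2 : (S.card : ℝ) ≤ C * (X : ℝ) ^ (3 / 2 : ℝ) / L := by
    rw [le_div_iff₀ hL0]
    exact h1
  refine h2.trans ?_
  have h3 : L = (X : ℝ) ^ (1 / 2 + 2 * β) / 2 ^ (1 / 2 + 2 * β) := by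
    rw [hL, Real.div_rpow hX0.le (by norm_num)]
  have h4 : C * (X : ℝ) ^ (3 / 2 : ℝ) / L = C * 2 ^ (1 / 2 + 2 * β) * (X : ℝ) ^ (1 - 2 * β) := by
    have h5 : (X : ℝ) ^ (1 - 2 * β) = (X : ℝ) ^ (3 / 2 : ℝ) / (X : ℝ) ^ (1 / 2 + 2 * β) := by
      rw [← Real.rpow_sub hX0]
      congr 1
      ring
    rw [h3, h5]
    field_simp
  rw [h4]
  exact mul_le_mul_of_nonneg_left (Real.rpow_le_rpow_of_exponent_le hX1' ht.le) (by positivity)

open Classical in
/-- The number of the `k` with `1 ≤ k ≤ X` for which not all natural numbers `m` at a distance of at most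
`w` from `k y` have the property `G`. -/
noncomputable def exceptions (X : ℝ) (y w : ℝ) (G : ℕ → Prop) : ℕ :=
  ((Finset.Icc 1 ⌊X⌋₊).filter (fun k : ℕ => ∃ m : ℕ, |(m : ℝ) - k * y| ≤ w ∧ ¬ G m)).card

/-- **The Ramanujan bound in weight 3/2 around the multiples of almost all real numbers.** Let `β > 0` and `0 < θ < 1`. There is
`c > 0` such that for every function `f` of the kind `IsHalfForm N` with the coefficients `a(n)` there is `X₀` such that for all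
`X ≥ X₀` there is a set `S` of real numbers of measure at most `X ^ (1 - θ - c)` with the following property. Let `y` be a real
number with `X ^ (1 - θ) ≤ y ≤ 2 X ^ (1 - θ)` which does not belong to `S`. For all `k ≤ X ^ θ`, with at most `X ^ (θ - c)`
exceptions, EVERY natural number `m` with `|m - k y| ≤ X ^ c` satisfies `|a(m)| ≤ m ^ (1/4 + β)`. -/
theorem result (β : ℝ) (hβ : 0 < β) (θ : ℝ) (hθ : 0 < θ) (hθ1 : θ < 1) :
    ∃ c : ℝ, 0 < c ∧ ∀ (N : ℕ) [NeZero N] (f : ℍ → ℂ) (a : ℕ → ℂ), IsHalfForm N f a → ∃ X₀ : ℕ, ∀ X : ℕ, X₀ ≤ X →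
      ∃ S : Set ℝ, MeasurableSet S ∧ volume S ≤ ENNReal.ofReal ((X : ℝ) ^ (1 - θ - c)) ∧
        ∀ y : ℝ, (X : ℝ) ^ (1 - θ) ≤ y → y ≤ 2 * (X : ℝ) ^ (1 - θ) → y ∉ S →
          (exceptions ((X : ℝ) ^ θ) y ((X : ℝ) ^ c) (fun m => ‖a m‖ ≤ (m : ℝ) ^ (1 / 4 + β)) : ℝ) ≤ (X : ℝ) ^ (θ - c) := by
  classical
  obtain ⟨γ, hγ⟩ : ∃ γ : ℝ, γ = min β (1 / 2) := ⟨_, rfl⟩
  have hγ0 : 0 < γ := by rw [hγ]; exact lt_min hβ (by norm_num)
  have hγ2 : γ ≤ 1 / 2 := by rw [hγ]; exact min_le_right _ _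
  have hγβ : γ ≤ β := by rw [hγ]; exact min_le_left _ _
  obtain ⟨c, hc, h⟩ := Pool.Agent.Q319.DR.mult_fewP θ hθ hθ1 γ hγ0
  refine ⟨c, hc, fun N _ f a hf => ?_⟩
  obtain ⟨C, hC⟩ := few hf hγ0 hγ2 (1 - γ) (by linarith)
  have hT : ∀ X : ℕ, (((Finset.Ioc 0 X).filter
      (fun m => m ∈ {m : ℕ | ¬ ‖a m‖ ≤ (m : ℝ) ^ (1 / 4 + β)})).card : ℝ) ≤ |C| * (X : ℝ) ^ (1 - γ) := by
    intro X
    rcases Nat.eq_zero_or_pos X with rfl | hX
    · simp only [Finset.Ioc_self, Finset.filter_empty, Finset.card_empty, Nat.cast_zero]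
      positivity
    · refine le_trans ?_ ((hC X hX).trans (mul_le_mul_of_nonneg_right (le_abs_self C) (by positivity)))
      refine Nat.cast_le.2 (Pool.Agent.Q21.DW.card_mono fun m hm hbad => ?_)
      rw [Finset.mem_Ioc] at hm
      refine ⟨Finset.mem_Icc.2 ⟨hm.1, hm.2⟩, fun hgood => hbad (hgood.trans ?_)⟩
      have hm1 : (1 : ℝ) ≤ m := by exact_mod_cast hm.1
      exact Real.rpow_le_rpow_of_exponent_le hm1 (by linarith)
  obtain ⟨X₀, hX⟩ := h |C| {m : ℕ | ¬ ‖a m‖ ≤ (m : ℝ) ^ (1 / 4 + β)} (fun X => by convert hT X)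
  refine ⟨X₀, fun X hXX => ?_⟩
  obtain ⟨S, hS1, hS2, hS3⟩ := hX X hXX
  refine ⟨S, hS1, hS2, fun y hy1 hy2 hy3 => ?_⟩
  convert hS3 y hy1 hy2 hy3 using 2
  all_goals rfl

end Pool.Agent.Results.MP_af11aa_nt.RealMultiples
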